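import Pool.Agent.Helper3.AA.TWO
import Pool.Agent.Helper36.AA.ONE
import Pool.Agent.Helper51.AA.Conc
import Pool.Agent.Helper53.AA.MOV
import Pool.Agent.Helper65.AA.SUB
import Pool.Agent.Helper70.AA.ANA2
import Pool.Agent.Helper83.AA.TRI

/-!
# AA: the assembled theorems

`one`: linearly dependent unit vectors; `two`: `D + 2` unit vectors in a space of dimension `D`.
-/

set_option autoImplicit false

namespace Pool.Agent.Helper3.AA

theorem one : S_ONE := Pool.Agent.Helper36.AA.ONE.main

theorem two : S_TWO :=
  TWO.main (Pool.Agent.Helper53.AA.MOV.main Pool.Agent.Helper51.AA.Conc.main)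
    (Pool.Agent.Helper70.AA.ANA2.main Pool.Agent.Helper51.AA.Conc.main
      Pool.Agent.Helper65.AA.SUB.main Pool.Agent.Helper83.AA.TRI.main) one

end Pool.Agent.Helper3.AA
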