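import Mathlib

/-!
# MP_a01ab0_co: `d + 3` points (swarm AA): statements of the parts

Main statement: unit vectors `x_1, ..., x_(D+2)` in a space of dimension `D` have
`∑_{i<j} arcsin |⟨x_i, x_j⟩| ≥ π`.
-/

set_option autoImplicit false

open Real Set

namespace Pool.Agent.Helper3.AA

/-- the complement of the non-obtuse angle -/
noncomputable def aw {E : Type} [NormedAddCommGroup E] [InnerProductSpace ℝ E] (x y : E) : ℝ :=
  arcsin |inner ℝ x y|

/-- the sum over the pairs of a list -/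
noncomputable def ps {E : Type} [NormedAddCommGroup E] [InnerProductSpace ℝ E] : List E → ℝ
  | [] => 0
  | x :: l => (l.map (aw x)).sum + ps l

/-- CON.  (`c cos t + d sin t = A cos (t - t0)`, `A ≤ 1`.)  E.g. `h = arcsin u` has, where `u < 1`,
`h'' = -(1 - A^2) u / (1-u^2)^(3/2) ≤ 0` (`AntitoneOn.concaveOn_of_deriv` / second derivative); the case
`A = 1` is `π/2 - |t - t0|` (or let `A → 1`). -/
def S_CON : Prop := ∀ (c d a b : ℝ), c ^ 2 + d ^ 2 ≤ 1 →
  (∀ t ∈ Icc a b, 0 ≤ c * cos t + d * sin t) →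
  ConcaveOn ℝ (Icc a b) (fun t => arcsin (c * cos t + d * sin t))

/-- SUB.  For two: `arcsin (x sin θ₁) + arcsin (x sin θ₂) ≥ arcsin (x sin (θ₁ + θ₂))` if
`θ₁ + θ₂ ≤ π/2`: `sin` of the left side is `x sin θ₁ √(1 - x² sin² θ₂) + ... ≥ x sin θ₁ cos θ₂ + ...`.
(General: `cos a = sin (min (∑) (π/2))`; induction on the list.) -/
def S_SUB : Prop := ∀ (L : List ℝ) (x : ℝ), (∀ s ∈ L, 0 ≤ s ∧ s ≤ 1) → 0 ≤ x → x ≤ 1 →
  arcsin (cos (max 0 (π / 2 - (L.map arcsin).sum)) * x) ≤ (L.map fun s => arcsin (s * x)).sum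

/-- TRI.  Put `u = α - arcsin (cos a sin α)`, `v = β - arcsin (cos b sin β)`, `0 ≤ u ≤ a`, `0 ≤ v ≤ b`,
`cot α = (cos u - cos a) / sin u`, `cot β = (cos v - cos b) / sin v`.  Suppose `S < u + v`; then with
`a = u + s`, `b = v + t`: `s < v`, `t < u` and `s + t < arcsin q ≤ π/2`, so
`sin u sin v sin (s+t) < (cos u - cos (u+s)) (cos v - cos (v+t))
 = 4 sin (u+s/2) sin (s/2) sin (v+t/2) sin (t/2)`; `sin (u + s/2) / sin u ≤ sin (t + s/2) / sin t`
(`t ≤ u`), `sin (v + t/2) / sin v ≤ sin (s + t/2) / sin s`, so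
`cos (t/2) cos (s/2) sin (s+t) < sin (t+s/2) sin (s+t/2)`, i.e. with `σ = (s+t)/2 ≤ π/4`, `d = (t-s)/2`:
`cos d (1 - sin 2σ) > cos 3σ + sin 2σ cos σ`, false: `1 - sin 2σ ≤ cos 3σ + sin 2σ cos σ`, because this
is `1 - cos σ ≤ cos σ (cos 2σ + sin 2σ - 1) + sin 2σ (1 - sin σ)` and
`tan (σ/2) ≤ tan (π/8) = √2 - 1 ≤ 2 cos σ (1 - sin σ)`.  Checked numerically. -/
def S_TRI : Prop := ∀ (a b S α β q : ℝ), 0 ≤ a → a ≤ π / 2 → 0 ≤ b → b ≤ π / 2 → a ≤ S → b ≤ S →
  0 < α → α < π / 2 → 0 < β → β < π / 2 → 0 ≤ q → q ≤ 1 → cos α * cos β = q * (sin α * sin β) →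
  a + b - arcsin q ≤ S → α + β ≤ arcsin (cos a * sin α) + arcsin (cos b * sin β) + S

/-- ANA2 (hypotheses CON, SUB, TRI).  Write `H (α, β)` for the left side.  If `r ≥ 0` it is concave in
each variable on `[0, π/2]`, so at least the minimum of the four corners, which are `≥ π` by the
hypotheses.  If `r = -q < 0`: it is concave in `α` on both sides of the `α*` with
`cos α* cos β = q sin α* sin β`; the ends `α = 0`, `α = π/2` are as before (concave in `β`), and at `α*`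
use TRI and SUB with `a = max 0 (π/2 - ∑ arcsin s)`, `b = max 0 (π/2 - ∑ arcsin t)`. -/
def S_ANA2 : Prop := ∀ (L M : List ℝ) (r S α β : ℝ), (∀ s ∈ L, 0 ≤ s ∧ s ≤ 1) →
  (∀ s ∈ M, 0 ≤ s ∧ s ≤ 1) → -1 ≤ r → r ≤ 1 → 0 ≤ S → 0 ≤ α → α ≤ π / 2 → 0 ≤ β → β ≤ π / 2 →
  π / 2 ≤ (L.map arcsin).sum + S → π / 2 ≤ (M.map arcsin).sum + S →
  π ≤ (L.map arcsin).sum + (M.map arcsin).sum + arcsin |r| + S →
  π ≤ (π / 2 - α) + (π / 2 - β) + (L.map fun s => arcsin (s * sin α)).sum +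
    (M.map fun s => arcsin (s * sin β)).sum + arcsin |cos α * cos β + r * (sin α * sin β)| + S

/-- MOV (hypothesis CON).  If `x` is orthogonal to less than `n - 1` of the vectors (`n = finrank V`), there
is a unit vector `w` in `V` orthogonal to `x` and to these; on the great circle `cos t x + sin t w`,
between the first zeros on both sides of `0` of the other inner products, the sum is concave, so at one
of the two ends it is not larger; induction on the number of the vectors not orthogonal to `x`. -/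
def S_MOV : Prop := ∀ (E : Type) [NormedAddCommGroup E] [InnerProductSpace ℝ E] (V : Submodule ℝ E)
  [FiniteDimensional ℝ V] (l : List E) (x : E), (∀ y ∈ l, y ∈ V ∧ ‖y‖ = 1) → x ∈ V → ‖x‖ = 1 →
  Module.finrank ℝ V ≤ l.length + 1 → ∃ (x' : E) (K J : List E), x' ∈ V ∧ ‖x'‖ = 1 ∧
    (K ++ J).Perm l ∧ (∀ y ∈ J, inner ℝ x' y = 0) ∧
    K.length + Module.finrank ℝ V ≤ l.length + 1 ∧ (l.map (aw x')).sum ≤ (l.map (aw x)).sum

/-- ONE.  From `Pool.Agent.Helper36.FT.dependent` (linearly dependent unit vectors), or by the same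
induction as TWO. -/
def S_ONE : Prop := ∀ (E : Type) [NormedAddCommGroup E] [InnerProductSpace ℝ E] (V : Submodule ℝ E)
  [FiniteDimensional ℝ V] (l : List E), (∀ y ∈ l, y ∈ V ∧ ‖y‖ = 1) →
  Module.finrank ℝ V < l.length → π / 2 ≤ ps l

/-- TWO (hypotheses MOV, ANA2, ONE).  Induction on `D`, `finrank V ≤ D`, `l.length = D + 2` (a sublist).
`l = x :: l'`, MOV: `K` has at most two elements, `J ⊆ V' = V ⊓ x'ᗮ` of dimension `≤ D - 1`.  For
`K = [y₁, z₁]` write `y₁ = ± (cos α x' + sin α y)`, `z₁ = ± (cos β x' + sin β z)`, `y, z ∈ V'` unit vectors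
(if `sin α = 0` take any unit vector, or treat it directly), `r = ± ⟨y, z⟩`, `S = ps J`; ONE for `y :: J`,
`z :: J` and the induction hypothesis for `y :: z :: J` are the three hypotheses of ANA2.  For `K = [y₁]`:
`arcsin (s sin α) ≥ (2α/π) arcsin s`, ONE for `J` and the induction hypothesis for `y :: J`. `K = []`: the
induction hypothesis for `J`. -/
def S_TWO : Prop := ∀ (E : Type) [NormedAddCommGroup E] [InnerProductSpace ℝ E] (V : Submodule ℝ E)
  [FiniteDimensional ℝ V] (l : List E), (∀ y ∈ l, y ∈ V ∧ ‖y‖ = 1) →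
  Module.finrank ℝ V + 2 ≤ l.length → π ≤ ps l

/-- FIN (hypothesis TWO): `∑ i, ∑ j arccos |⟨x i, x j⟩|` for `N = d + 3` points of `S^d`: at most
`(N (N - 1) - 4) π / 2`. -/
def S_FIN : Prop := ∀ (d : ℕ) (x : Fin (d + 3) → EuclideanSpace ℝ (Fin (d + 1))), (∀ i, ‖x i‖ = 1) →
  ∑ i, ∑ j, arccos |inner ℝ (x i) (x j)| ≤ (((d : ℝ) + 3) * ((d : ℝ) + 2) - 4) * (π / 2)

end Pool.Agent.Helper3.AA
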