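import Pool.Agent.Helper3.AA.Spec

/-!
# AA, part TWO: the induction on the dimension
-/

set_option autoImplicit false

open Real Set

namespace Pool.Agent.Helper3.AA

section

variable {E : Type} [NormedAddCommGroup E] [InnerProductSpace ℝ E]

lemma aw_nonneg (x y : E) : 0 ≤ aw x y := arcsin_nonneg.2 (abs_nonneg _)

lemma aw_comm (x y : E) : aw x y = aw y x := by
  unfold aw
  rw [real_inner_comm]

lemma sum_aw_nonneg (x : E) (l : List E) : 0 ≤ (l.map (aw x)).sum :=
  List.sum_nonneg fun z hz => by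
    obtain ⟨y, _, rfl⟩ := List.mem_map.1 hz
    exact aw_nonneg _ _

lemma ps_nonneg : ∀ l : List E, 0 ≤ ps l
  | [] => le_rfl
  | x :: l => add_nonneg (sum_aw_nonneg x l) (ps_nonneg l)

lemma ps_cons (x : E) (l : List E) : ps (x :: l) = (l.map (aw x)).sum + ps l := rfl

lemma ps_perm {l l' : List E} (h : l.Perm l') : ps l = ps l' := by
  induction h with
  | nil => rfl
  | cons x h ih => rw [ps_cons, ps_cons, ih, (h.map (aw x)).sum_eq]
  | swap x y l =>
    simp only [ps_cons, List.map_cons, List.sum_cons]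
    rw [aw_comm x y]
    ring
  | trans _ _ ih1 ih2 => exact ih1.trans ih2

lemma sum_sublist {l l' : List E} (h : l.Sublist l') (x : E) :
    (l.map (aw x)).sum ≤ (l'.map (aw x)).sum := by
  induction h with
  | slnil => exact le_rfl
  | cons a _ ih =>
    rw [List.map_cons, List.sum_cons]
    linarith [aw_nonneg x a]
  | cons_cons a _ ih =>
    rw [List.map_cons, List.sum_cons, List.map_cons, List.sum_cons]
    linarith

lemma ps_sublist {l l' : List E} (h : l.Sublist l') : ps l ≤ ps l' := by
  induction h with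
  | slnil => exact le_rfl
  | cons a _ ih =>
    rw [ps_cons]
    linarith [sum_aw_nonneg a ‹List E›]
  | cons_cons a h ih =>
    rw [ps_cons, ps_cons]
    linarith [sum_sublist h a]

/-- polar decomposition relative to a unit vector -/
lemma decomp {V : Submodule ℝ E} {x y₀ : E} (hx : x ∈ V) (hx1 : ‖x‖ = 1)
    (hy₀ : y₀ ∈ V) (hxy₀ : inner ℝ x y₀ = 0) (hy₀1 : ‖y₀‖ = 1) {y₁ : E} (hy₁ : y₁ ∈ V)
    (hy₁1 : ‖y₁‖ = 1) :
    ∃ (α : ℝ) (y : E) (ε : ℝ), 0 ≤ α ∧ α ≤ π / 2 ∧ y ∈ V ∧ inner ℝ x y = 0 ∧ ‖y‖ = 1 ∧ |ε| = 1 ∧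
      y₁ = ε • (cos α • x + sin α • y) := by
  set c : ℝ := inner ℝ x y₁ with hc
  have hc1 : |c| ≤ 1 := by
    have := abs_real_inner_le_norm x y₁
    rwa [hx1, hy₁1, mul_one] at this
  obtain ⟨ε, hε, hεc⟩ : ∃ ε : ℝ, |ε| = 1 ∧ ε * c = |c| := by
    rcases le_total 0 c with h | h
    · exact ⟨1, abs_one, by rw [one_mul, abs_of_nonneg h]⟩
    · exact ⟨-1, by simp, by rw [abs_of_nonpos h]; ring⟩
  have hεε : ε * ε = 1 := by
    rw [← abs_mul_abs_self, hε, one_mul]
  set α : ℝ := arccos |c| with hα
  have hcos : cos α = |c| := cos_arccos (by linarith [abs_nonneg c]) hc1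
  have hα0 : 0 ≤ α := arccos_nonneg _
  have hα1 : α ≤ π / 2 := arccos_le_pi_div_two.2 (abs_nonneg c)
  have hsin0 : 0 ≤ sin α := sin_nonneg_of_nonneg_of_le_pi hα0 (by linarith [pi_pos])
  have hxx : inner ℝ x x = (1 : ℝ) := by rw [real_inner_self_eq_norm_sq, hx1]; norm_num
  have hyy : inner ℝ y₁ y₁ = (1 : ℝ) := by rw [real_inner_self_eq_norm_sq, hy₁1]; norm_num
  set r : E := ε • y₁ - |c| • x with hr
  have hrV : r ∈ V := V.sub_mem (V.smul_mem _ hy₁) (V.smul_mem _ hx)
  have hxr : inner ℝ x r = 0 := by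
    rw [hr, inner_sub_right, real_inner_smul_right, real_inner_smul_right, hxx, ← hc, hεc]
    ring
  have hrr : inner ℝ r r = sin α ^ 2 := by
    have h1 : inner ℝ r r = ε * inner ℝ r y₁ - |c| * inner ℝ r x := by
      conv_lhs => rw [hr]
      rw [inner_sub_right, real_inner_smul_right, real_inner_smul_right]
    have h2 : inner ℝ r y₁ = ε - |c| * c := by
      rw [hr, inner_sub_left, real_inner_smul_left, real_inner_smul_left, hyy, ← hc]
      ring
    rw [h1, h2, real_inner_comm, hxr, sin_sq, hcos]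
    have h3 : |c| * (ε * c) = |c| ^ 2 := by rw [hεc]; ring
    linear_combination hεε - h3
  by_cases hs : sin α = 0
  · have hr0 : r = 0 := by
      rw [hs] at hrr
      simpa using hrr
    refine ⟨α, y₀, ε, hα0, hα1, hy₀, hxy₀, hy₀1, hε, ?_⟩
    have h1 : ε • y₁ = |c| • x := sub_eq_zero.1 hr0
    rw [hs, zero_smul, add_zero, hcos, ← h1, smul_smul, hεε, one_smul]
  · refine ⟨α, (sin α)⁻¹ • r, ε, hα0, hα1, V.smul_mem _ hrV, ?_, ?_, hε, ?_⟩
    · rw [real_inner_smul_right, hxr, mul_zero]
    · rw [norm_smul, Real.norm_eq_abs, abs_inv, abs_of_nonneg hsin0]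
      have h1 : ‖r‖ = sin α := by
        have h2 : ‖r‖ ^ 2 = sin α ^ 2 := by rw [← real_inner_self_eq_norm_sq, hrr]
        exact (pow_left_inj₀ (norm_nonneg _) hsin0 two_ne_zero).1 h2
      rw [h1, inv_mul_cancel₀ hs]
    · rw [smul_smul, mul_inv_cancel₀ hs, one_smul, hcos, hr, add_sub_cancel, smul_smul, hεε,
        one_smul]

lemma aw_polar {x y j : E} {α ε : ℝ} (hε : |ε| = 1) (hα0 : 0 ≤ α) (hα1 : α ≤ π / 2)
    (hxj : inner ℝ x j = 0) :
    aw (ε • (cos α • x + sin α • y)) j = arcsin (|inner ℝ y j| * sin α) := by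
  unfold aw
  have hsin0 : 0 ≤ sin α := sin_nonneg_of_nonneg_of_le_pi hα0 (by linarith [pi_pos])
  rw [real_inner_smul_left, inner_add_left, real_inner_smul_left, real_inner_smul_left, hxj,
    mul_zero, zero_add, abs_mul, hε, one_mul, abs_mul, abs_of_nonneg hsin0, mul_comm]

lemma aw_self_polar {x y : E} {α ε : ℝ} (hε : |ε| = 1) (hα0 : 0 ≤ α) (hα1 : α ≤ π / 2)
    (hx1 : ‖x‖ = 1) (hxy : inner ℝ x y = 0) :
    aw x (ε • (cos α • x + sin α • y)) = π / 2 - α := by
  unfold aw
  have hxx : inner ℝ x x = (1 : ℝ) := by rw [real_inner_self_eq_norm_sq, hx1]; norm_num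
  have hcos0 : 0 ≤ cos α := cos_nonneg_of_mem_Icc ⟨by linarith, hα1⟩
  rw [real_inner_smul_right, inner_add_right, real_inner_smul_right, real_inner_smul_right, hxy,
    hxx, mul_zero, add_zero, mul_one, abs_mul, hε, one_mul, abs_of_nonneg hcos0,
    ← sin_pi_div_two_sub, arcsin_sin (by linarith) (by linarith)]

lemma aw_polar_polar {x y z : E} {α β ε δ : ℝ} (hε : |ε| = 1) (hδ : |δ| = 1) (hx1 : ‖x‖ = 1)
    (hxy : inner ℝ x y = 0) (hxz : inner ℝ x z = 0) :
    aw (ε • (cos α • x + sin α • y)) (δ • (cos β • x + sin β • z)) =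
      arcsin |cos α * cos β + inner ℝ y z * (sin α * sin β)| := by
  unfold aw
  have hxx : inner ℝ x x = (1 : ℝ) := by rw [real_inner_self_eq_norm_sq, hx1]; norm_num
  have hyx : inner ℝ y x = (0 : ℝ) := by rw [real_inner_comm]; exact hxy
  rw [real_inner_smul_left, real_inner_smul_right, inner_add_left, inner_add_right, inner_add_right]
  simp only [real_inner_smul_left, real_inner_smul_right, hxx, hxz, hyx]
  rw [abs_mul, hε, one_mul, abs_mul, hδ, one_mul]
  congr 2
  ring

end

theorem two_aux (hMOV : S_MOV) (hANA : S_ANA2) (hONE : S_ONE) (E : Type) [NormedAddCommGroup E]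
    [InnerProductSpace ℝ E] : ∀ (D : ℕ) (V : Submodule ℝ E) [FiniteDimensional ℝ V]
    (l : List E), Module.finrank ℝ V ≤ D → (∀ y ∈ l, y ∈ V ∧ ‖y‖ = 1) → l.length = D + 2 →
    π ≤ ps l := by
  intro D
  induction D with
  | zero =>
    intro V _ l hV hl hlen
    exfalso
    have h0 : V = ⊥ := Submodule.finrank_eq_zero.1 (Nat.le_zero.1 hV)
    obtain ⟨x, l', rfl⟩ : ∃ x l', l = x :: l' := by
      cases l with
      | nil => simp at hlen
      | cons x l' => exact ⟨x, l', rfl⟩
    obtain ⟨h1, h2⟩ := hl x (List.mem_cons_self ..)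
    rw [h0, Submodule.mem_bot] at h1
    rw [h1, norm_zero] at h2
    exact zero_ne_one h2
  | succ D ih =>
    intro V _ l hV hl hlen
    obtain ⟨x, l', rfl⟩ : ∃ x l', l = x :: l' := by
      cases l with
      | nil => simp at hlen
      | cons x l' => exact ⟨x, l', rfl⟩
    have hlen' : l'.length = D + 2 := by simpa using hlen
    have hl' : ∀ y ∈ l', y ∈ V ∧ ‖y‖ = 1 := fun y hy => hl y (List.mem_cons_of_mem _ hy)
    rcases Nat.lt_or_ge (Module.finrank ℝ V) (D + 1) with hlt | hge
    · have h1 := ih V l' (by omega) hl' hlen'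
      rw [ps_cons]
      linarith [sum_aw_nonneg x l']
    have hfr : Module.finrank ℝ V = D + 1 := le_antisymm hV hge
    obtain ⟨hxV, hx1⟩ := hl x (List.mem_cons_self ..)
    obtain ⟨x', K, J, hx'V, hx'1, hperm, hJ, hcard, hsum⟩ :=
      hMOV E V l' x hl' hxV hx1 (by omega)
    have hKl : ∀ y ∈ K, y ∈ V ∧ ‖y‖ = 1 := fun y hy =>
      hl' y (hperm.subset (List.mem_append_left _ hy))
    have hJl : ∀ y ∈ J, y ∈ V ∧ ‖y‖ = 1 := fun y hy =>
      hl' y (hperm.subset (List.mem_append_right _ hy))
    have hlenKJ : K.length + J.length = D + 2 := by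
      rw [← List.length_append, hperm.length_eq, hlen']
    have hred : ps (x' :: (K ++ J)) ≤ ps (x :: l') := by
      rw [ps_cons, ps_cons, ps_perm hperm, (hperm.map (aw x')).sum_eq]
      linarith
    refine le_trans ?_ hred
    set V' : Submodule ℝ E := V ⊓ (Submodule.span ℝ {x'})ᗮ with hV'
    have memV' : ∀ y, y ∈ V' ↔ y ∈ V ∧ inner ℝ x' y = 0 := by
      intro y
      rw [hV', Submodule.mem_inf, Submodule.mem_orthogonal_singleton_iff_inner_right]
    have hV'V : V' < V := by
      refine lt_of_le_of_ne inf_le_left fun h => ?_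
      have h1 : x' ∈ V' := by rw [h]; exact hx'V
      have h2 := ((memV' x').1 h1).2
      rw [real_inner_self_eq_norm_sq, hx'1] at h2
      norm_num at h2
    have : FiniteDimensional ℝ V' := Submodule.finiteDimensional_of_le inf_le_left
    have hfr' : Module.finrank ℝ V' ≤ D := by
      have := Submodule.finrank_lt_finrank_of_lt hV'V
      omega
    have hJV' : ∀ y ∈ J, y ∈ V' ∧ ‖y‖ = 1 := fun y hy =>
      ⟨(memV' y).2 ⟨(hJl y hy).1, hJ y hy⟩, (hJl y hy).2⟩
    have hJ0 : (J.map (aw x')).sum = 0 := by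
      rw [List.sum_eq_zero]
      intro z hz
      obtain ⟨y, hy, rfl⟩ := List.mem_map.1 hz
      unfold aw
      rw [hJ y hy, abs_zero, arcsin_zero]
    have habsJ : ∀ y : E, ‖y‖ = 1 → ∀ s ∈ J.map (fun j => |inner ℝ y j|), 0 ≤ s ∧ s ≤ 1 := by
      intro y hy s hs
      obtain ⟨j, hj, rfl⟩ := List.mem_map.1 hs
      refine ⟨abs_nonneg _, ?_⟩
      have := abs_real_inner_le_norm y j
      rwa [hy, (hJl j hj).2, mul_one] at this
    have hmapJ : ∀ y : E, ((J.map fun j => |inner ℝ y j|).map arcsin).sum = (J.map (aw y)).sum := by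
      intro y
      rw [List.map_map]
      rfl
    by_cases hVbot : V' = ⊥
    · -- all vectors are on one line
      have hJnil : J = [] := by
        cases J with
        | nil => rfl
        | cons j J =>
          exfalso
          obtain ⟨h1, h2⟩ := hJV' j (List.mem_cons_self ..)
          rw [hVbot, Submodule.mem_bot] at h1
          rw [h1, norm_zero] at h2
          exact zero_ne_one h2
      have hone : ∀ y ∈ K, aw x' y = π / 2 := by
        intro y hy
        obtain ⟨h1, h2⟩ := hKl y hy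
        have hxx : inner ℝ x' x' = (1 : ℝ) := by
          rw [real_inner_self_eq_norm_sq, hx'1]; norm_num
        have h3 : y - inner ℝ x' y • x' ∈ V' := by
          rw [memV']
          refine ⟨V.sub_mem h1 (V.smul_mem _ hx'V), ?_⟩
          rw [inner_sub_right, real_inner_smul_right, hxx, mul_one, sub_self]
        rw [hVbot, Submodule.mem_bot, sub_eq_zero] at h3
        have h4 : |inner ℝ x' y| = (1 : ℝ) := by
          rw [h3, norm_smul, hx'1, mul_one, Real.norm_eq_abs] at h2
          exact h2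
        unfold aw
        rw [h4, arcsin_one]
      rw [hJnil] at hlenKJ
      simp only [List.length_nil, add_zero] at hlenKJ
      obtain ⟨y, z, K', rfl⟩ : ∃ y z K', K = y :: z :: K' := by
        match K, hlenKJ with
        | y :: z :: K', _ => exact ⟨y, z, K', rfl⟩
      have h1 := hone y (by simp)
      have h2 := hone z (by simp)
      rw [hJnil, List.append_nil, ps_cons, List.map_cons, List.map_cons, List.sum_cons,
        List.sum_cons, h1, h2]
      linarith [sum_aw_nonneg x' K', ps_nonneg (y :: z :: K')]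
    · obtain ⟨y₀, hy₀V', hy₀⟩ := Submodule.exists_mem_ne_zero_of_ne_bot hVbot
      obtain ⟨y₀, hy₀V', hy₀1⟩ : ∃ y₀ ∈ V', ‖y₀‖ = 1 :=
        ⟨(‖y₀‖⁻¹ : ℝ) • y₀, V'.smul_mem _ hy₀V', by
          rw [norm_smul, norm_inv, norm_norm, inv_mul_cancel₀ (norm_ne_zero_iff.2 hy₀)]⟩
      obtain ⟨hy₀V, hxy₀⟩ := (memV' y₀).1 hy₀V'
      match K, hKl, hlenKJ, hcard with
      | [], _, hlenKJ, _ =>
        have h1 := ih V' J hfr' hJV' (by simpa using hlenKJ)
        rw [List.nil_append, ps_cons, hJ0, zero_add]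
        exact h1
      | [y₁], hKl, hlenKJ, _ =>
        obtain ⟨hy₁V, hy₁1⟩ := hKl y₁ (by simp)
        obtain ⟨α, y, ε, hα0, hα1, hyV, hxy, hy1, hε, hy₁⟩ :=
          decomp hx'V hx'1 hy₀V hxy₀ hy₀1 hy₁V hy₁1
        have hJlen : J.length = D + 1 := by simp at hlenKJ; omega
        have h1 := hONE E V' J hJV' (by omega)
        have h2 := ih V' (y :: J) hfr' (by
          intro v hv
          rcases List.mem_cons.1 hv with rfl | hv
          · exact ⟨(memV' _).2 ⟨hyV, hxy⟩, hy1⟩
          · exact hJV' v hv) (by simp [hJlen])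
        rw [ps_cons] at h2
        have h3 := hANA (J.map fun j => |inner ℝ y j|) [] 0 (ps J) α (π / 2) (habsJ y hy1)
          (by simp) (by norm_num) (by norm_num) (ps_nonneg J) hα0 hα1 (by positivity) le_rfl
          (by rw [hmapJ]; linarith [sum_aw_nonneg y J]) (by simpa using h1)
          (by rw [hmapJ]; simp; linarith)
        have h4 : (J.map (aw y₁)).sum =
            ((J.map fun j => |inner ℝ y j|).map fun s => arcsin (s * sin α)).sum := by
          rw [List.map_map]
          congr 1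
          refine List.map_congr_left fun j hj => ?_
          rw [hy₁]
          exact aw_polar hε hα0 hα1 (hJ j hj)
        have h5 : aw x' y₁ = π / 2 - α := by
          rw [hy₁]
          exact aw_self_polar hε hα0 hα1 hx'1 hxy
        simp only [List.cons_append, List.nil_append, ps_cons, List.map_cons, List.sum_cons, hJ0,
          h4, h5]
        simp only [List.map_nil, List.sum_nil, cos_pi_div_two, sin_pi_div_two, mul_zero, zero_mul,
          add_zero, abs_zero, arcsin_zero] at h3
        linarith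
      | [y₁, z₁], hKl, hlenKJ, _ =>
        obtain ⟨hy₁V, hy₁1⟩ := hKl y₁ (by simp)
        obtain ⟨hz₁V, hz₁1⟩ := hKl z₁ (by simp)
        obtain ⟨α, y, ε, hα0, hα1, hyV, hxy, hy1, hε, hy₁⟩ :=
          decomp hx'V hx'1 hy₀V hxy₀ hy₀1 hy₁V hy₁1
        obtain ⟨β, z, δ, hβ0, hβ1, hzV, hxz, hz1, hδ, hz₁⟩ :=
          decomp hx'V hx'1 hy₀V hxy₀ hy₀1 hz₁V hz₁1
        have hJlen : J.length = D := by simp at hlenKJ; omega
        have hyV' : y ∈ V' ∧ ‖y‖ = 1 := ⟨(memV' _).2 ⟨hyV, hxy⟩, hy1⟩
        have hzV' : z ∈ V' ∧ ‖z‖ = 1 := ⟨(memV' _).2 ⟨hzV, hxz⟩, hz1⟩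
        have h1 := hONE E V' (y :: J) (by
          intro v hv
          rcases List.mem_cons.1 hv with rfl | hv
          · exact hyV'
          · exact hJV' v hv) (by simp; omega)
        have h1' := hONE E V' (z :: J) (by
          intro v hv
          rcases List.mem_cons.1 hv with rfl | hv
          · exact hzV'
          · exact hJV' v hv) (by simp; omega)
        have h2 := ih V' (y :: z :: J) hfr' (by
          intro v hv
          rcases List.mem_cons.1 hv with rfl | hv
          · exact hyV'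
          rcases List.mem_cons.1 hv with rfl | hv
          · exact hzV'
          · exact hJV' v hv) (by simp [hJlen])
        rw [ps_cons] at h1 h1'
        simp only [ps_cons, List.map_cons, List.sum_cons] at h2
        have hr : |inner ℝ y z| ≤ (1 : ℝ) := by
          have := abs_real_inner_le_norm y z
          rwa [hy1, hz1, mul_one] at this
        have hyz : arcsin |inner ℝ y z| = aw y z := rfl
        have h3 := hANA (J.map fun j => |inner ℝ y j|) (J.map fun j => |inner ℝ z j|)
          (inner ℝ y z) (ps J) α β (habsJ y hy1) (habsJ z hz1) (abs_le.1 hr).1 (abs_le.1 hr).2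
          (ps_nonneg J) hα0 hα1 hβ0 hβ1
          (by rw [hmapJ]; linarith) (by rw [hmapJ]; linarith)
          (by rw [hmapJ, hmapJ, hyz]; linarith)
        have h4 : (J.map (aw y₁)).sum =
            ((J.map fun j => |inner ℝ y j|).map fun s => arcsin (s * sin α)).sum := by
          rw [List.map_map]
          congr 1
          refine List.map_congr_left fun j hj => ?_
          rw [hy₁]
          exact aw_polar hε hα0 hα1 (hJ j hj)
        have h4' : (J.map (aw z₁)).sum =
            ((J.map fun j => |inner ℝ z j|).map fun s => arcsin (s * sin β)).sum := by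
          rw [List.map_map]
          congr 1
          refine List.map_congr_left fun j hj => ?_
          rw [hz₁]
          exact aw_polar hδ hβ0 hβ1 (hJ j hj)
        have h5 : aw x' y₁ = π / 2 - α := by
          rw [hy₁]
          exact aw_self_polar hε hα0 hα1 hx'1 hxy
        have h5' : aw x' z₁ = π / 2 - β := by
          rw [hz₁]
          exact aw_self_polar hδ hβ0 hβ1 hx'1 hxz
        have h6 : aw y₁ z₁ = arcsin |cos α * cos β + inner ℝ y z * (sin α * sin β)| := by
          rw [hy₁, hz₁]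
          exact aw_polar_polar hε hδ hx'1 hxy hxz
        simp only [List.cons_append, List.nil_append, ps_cons, List.map_cons, List.sum_cons, hJ0,
          h4, h4', h5, h5', h6]
        linarith
      | y₁ :: z₁ :: v :: K', _, hlenKJ, hcard =>
        exfalso
        simp at hcard
        omega

theorem TWO.main (hMOV : S_MOV) (hANA : S_ANA2) (hONE : S_ONE) : S_TWO := by
  intro E _ _ V _ l hl hlen
  have h1 := two_aux hMOV hANA hONE E (Module.finrank ℝ V) V (l.take (Module.finrank ℝ V + 2)) le_rfl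
    (fun y hy => hl y (List.mem_of_mem_take hy)) (by rw [List.length_take]; omega)
  exact h1.trans (ps_sublist (List.take_sublist _ _))

end Pool.Agent.Helper3.AA
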